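import Pool.Agent.Lead.Zc

namespace Pool.Agent.Results.MP_09df17_pr.Counterexample

open Pool.Agent.Lead.Zc

theorem result : ∃ (V : Type) (G : SimpleGraph V) (_ : G.LocallyFinite) (_ : AddAction ℤ V)
    (D : Set V), G.Connected ∧
    (∀ (k : ℤ) (x y : V), G.Adj (k +ᵥ x) (k +ᵥ y) ↔ G.Adj x y) ∧
    (∀ (k : ℤ) (x : V), k +ᵥ x = x → k = 0) ∧
    (∀ f : V → ℝ, Harmonic G f → (∀ (k : ℤ) (x : V), f (k +ᵥ x) = f x) → ∀ x y, f x = f y) ∧
    (∀ x : V, ∃! y : V, y ∈ D ∧ ∃ k : ℤ, y = k +ᵥ x) ∧ (G.induce D).Connected ∧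
    (∀ (k : ℤ) (x : V),
      Filter.Tendsto (fun n => hit G ((fun y => k +ᵥ y) '' D) n x) Filter.atTop (nhds 1)) ∧
    ∃ f : V → ℝ, Harmonic G f ∧ (∀ x, |f x| ≤ 1) ∧ ∃ x y, f x ≠ f y := by
  refine ⟨HV × ℤ, GG, lf, act, {a | a.2 = 0}, G_conn, fun k x y => ?_, fun k x h => ?_, H_liou,
    fun x => ⟨(x.1, 0), ⟨rfl, -x.2, by simp [vadd_def]⟩, ?_⟩, D_conn 0, fun k x => ?_, nonliou⟩
  · simp only [GG, vadd_def, add_assoc, add_right_inj]
  · simpa [vadd_def] using congrArg Prod.snd h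
  · rintro y ⟨h, k, rfl⟩
    exact Prod.ext rfl h
  · have : (fun y => k +ᵥ y) '' {a : HV × ℤ | a.2 = 0} = {a | a.2 = k} := by
      ext a
      exact ⟨fun ⟨b, hb, e⟩ => by simp [← e, vadd_def, show b.2 = 0 from hb],
        fun h => ⟨(a.1, 0), rfl, Prod.ext rfl (by simpa [vadd_def] using h.symm)⟩⟩
    rw [this]
    exact hit_one deg_pos _ (9 / 20) (by norm_num) (lower k) x

end Pool.Agent.Results.MP_09df17_pr.Counterexample
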